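import Pool.Agent.TH663.LS.Mem
import Pool.Agent.H612.PatOf

/-!
# Long/short edge realizability of complete bipartite graphs is `∃ℝ`-complete

The definitions are in `Pool.Agent.TH663.LS.Defs` (graphs with short and long edges, straight-line
drawings) and in `Pool.Agent.ER.Defs` (the existential theory of the reals and the class `∃ℝ`).

Sketch of the hardness proof.  Whether a sign matrix is realized by points and lines of the plane
(on the correct sides of the lines) is `∃ℝ`-hard (`Pool.Agent.H612.PatOf`, `Pool.Agent.H625R2`).
The rows of the matrix are the vertices of one class; every column gives two vertices `q`, `q'` of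
the other class, and a row is joined by a short edge to `q` and by a long edge to `q'`, or
conversely, according to the sign.  If `|p - q| ≤ 1 < |p - q'|`, then `p` is closer to `q` than to
`q'`; so the points of the rows are separated by the perpendicular bisector of `q q'`.  Conversely
a realization of the matrix by points and lines is scaled down to a very small one, and `q`, `q'`
are the centres of unit disks that are close to the two half-planes of the line; all inequalities
are strict, and a perturbation makes the drawing nondegenerate.
-/

namespace Pool.Agent.Results.MP_24b35c_lc.CompleteBipartite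

open Pool.Agent.NPC Pool.Agent.NPC.ER Pool.Agent.NPC.ER.Pat Pool.Agent.TH663.LS

theorem isPatOf : IsPatOf Sgn.patOf where
  poly := Sgn.poly_patOf Poly.id
  wf := Sgn.patOf_wf
  sound := fun _ h => Sgn.patOf_sound h
  complete := fun _ h => Sgn.patOf_complete h

/-- The reduction. -/
def redS (S : List Con) : Inst := Pool.Agent.NPC.TH663.LS.red (matOf Sgn.patOf 0 S)

theorem redS_correct (S : List Con) : Sat S ↔ Realizable (redS S) := by
  obtain ⟨m, hm⟩ := rect_matOf Sgn.patOf 0 S
  exact ⟨fun hS => Pool.Agent.NPC.TH663.LS.red_of_SRN hm (isPatOf.srn (k := 0) hS),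
    fun hS => isPatOf.sat (k := 0) (Pool.Agent.NPC.TH663.LS.SR_of_red hm hS)⟩

theorem poly_redS : Pool.Agent.NPC.Poly redS :=
  Pool.Agent.NPC.TH663.LS.poly_red.comp (isPatOf.poly_matOf 0)

/-- Long/short edge realizability, restricted to complete bipartite graphs, is `∃ℝ`-complete;
moreover every problem of `∃ℝ` reduces to it by a polynomial-time reduction all of whose values are
complete bipartite graphs with a partition of the edges. -/
theorem result :
    ERComplete (lang fun G : Inst => IsInst G ∧ IsCompleteBipartite G ∧ Realizable G) ∧
    ∀ L, InER L → ∃ f : List Bool → Inst, PolyTime (fun w => bits (f w)) ∧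
      ∀ w, IsInst (f w) ∧ IsCompleteBipartite (f w) ∧ (w ∈ L ↔ Realizable (f w)) := by
  refine ⟨⟨InER.of_poly Pool.Agent.NPC.TH663.LS.poly_form Pool.Agent.NPC.TH663.LS.form_correct,
    ERHard.of_sys poly_redS fun S => ?_⟩, ?_⟩
  · rw [redS_correct]
    exact ⟨fun h => ⟨Pool.Agent.NPC.TH663.LS.isInst_red _, Pool.Agent.NPC.TH663.LS.bip_red _, h⟩,
      fun h => h.2.2⟩
  · rintro L ⟨g, hg, hL⟩
    have h1 : PC (id : List Bool → List Bool) (bits : Fm → List Bool) g :=
      Pool.Agent.H642R2.TMSim.polyTime_toPC hg
    have h2 : Pool.Agent.NPC.Poly (fun φ : Fm => redS (sysOf φ)) :=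
      Pool.Agent.NPC.Poly.comp (g := redS) poly_redS (poly_sysOf Pool.Agent.NPC.Poly.id)
    have h3 : PC (id : List Bool → List Bool) (bits : Inst → List Bool)
        (fun x => redS (sysOf (g x))) :=
      PC.comp (g := fun φ : Fm => redS (sysOf φ)) (eb := (bits : Fm → List Bool)) h2 h1
    have h4 : PC (id : List Bool → List Bool) (id : List Bool → List Bool)
        (fun x => bits (redS (sysOf (g x)))) := h3
    refine ⟨fun x => redS (sysOf (g x)), PC.toPolyTime h4, fun x =>
      ⟨Pool.Agent.NPC.TH663.LS.isInst_red _, Pool.Agent.NPC.TH663.LS.bip_red _, ?_⟩⟩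
    rw [hL, ← sat_sysOf, redS_correct]

end Pool.Agent.Results.MP_24b35c_lc.CompleteBipartite
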